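import Pool.Agent.H121.FL.Iface

set_option autoImplicit false

open scoped BigOperators InnerProductSpace Topology ENNReal
open Filter MeasureTheory

namespace Pool.Agent.H333.FL

open Pool.Agent.H121.FL

/-- coordinates of a point relative to its block -/
theorem coord (m : ℕ) (hm : 2 ≤ m) (x : ℤ) : ∃ P j : ℤ, (2 * (m : ℤ)) * (x / (2 * m : ℤ)) = P ∧
    x % (2 * m : ℤ) = j ∧ x = P + j ∧ 0 ≤ j ∧ j < 2 * m ∧
    ((j < m ∧ lft m x ∧ mir m x = P - 1 - j ∧ rr m x = j) ∨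
     (m ≤ j ∧ ¬ lft m x ∧ mir m x = P + 4 * m - 1 - j ∧ rr m x = 2 * m - 1 - j)) := by
  have hM : (0 : ℤ) < 2 * m := by omega
  refine ⟨_, _, rfl, rfl, (Int.mul_ediv_add_emod x (2 * m)).symm, Int.emod_nonneg x (by omega),
    Int.emod_lt_of_pos x hM, ?_⟩
  have hx := Int.mul_ediv_add_emod x (2 * m : ℤ)
  by_cases h : lft m x
  · left
    refine ⟨h, h, ?_, ?_⟩
    · rw [mir, if_pos h]
      have e : 2 * (2 * (m : ℤ)) * (x / (2 * m : ℤ)) = 2 * ((2 * (m : ℤ)) * (x / (2 * m : ℤ))) := by ring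
      rw [e]
      omega
    · rw [rr, if_pos h]
  · right
    refine ⟨not_lt.mp h, h, ?_, ?_⟩
    · rw [mir, if_neg h]
      have e : 2 * (2 * (m : ℤ)) * (x / (2 * m : ℤ) + 1)
        = 2 * ((2 * (m : ℤ)) * (x / (2 * m : ℤ))) + 4 * m := by ring
      rw [e]
      omega
    · rw [rr, if_neg h]

/-- the converse: the block and the position determine the coordinates -/
theorem coord' (m : ℕ) (hm : 2 ≤ m) (x n j : ℤ) (hx : x = 2 * (m : ℤ) * n + j) (h0 : 0 ≤ j)
    (h1 : j < 2 * m) : x / (2 * m : ℤ) = n ∧ x % (2 * m : ℤ) = j := by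
  have hM : (0 : ℤ) < 2 * m := by omega
  constructor
  · rw [hx, add_comm, Int.add_mul_ediv_left _ _ (by omega), Int.ediv_eq_zero_of_lt h0 h1, zero_add]
  · rw [hx, add_comm, Int.add_mul_emod_self_left, Int.emod_eq_of_lt h0 h1]

theorem mir_facts (m : ℕ) (hm : 2 ≤ m) (x : ℤ) :
    mir m (mir m x) = x ∧ rr m (mir m x) = rr m x ∧ (lft m (mir m x) ↔ ¬ lft m x) := by
  obtain ⟨P, j, hP, hj, hx, h0, h1, h⟩ := coord m hm x
  rcases h with ⟨a, b, c, d⟩ | ⟨a, b, c, d⟩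
  · obtain ⟨e1, e2⟩ := coord' m hm (mir m x) (x / (2 * m : ℤ) - 1) (2 * m - 1 - j)
      (by rw [c]; rw [mul_sub, hP]; ring) (by omega) (by omega)
    have hl : ¬ lft m (mir m x) := by
      rw [lft, e2]; omega
    refine ⟨?_, ?_, ?_⟩
    · rw [mir, if_neg hl, e1]
      have e : 2 * (2 * (m : ℤ)) * (x / (2 * m : ℤ) - 1 + 1)
        = 2 * ((2 * (m : ℤ)) * (x / (2 * m : ℤ))) := by ring
      rw [e, hP, c]; omega
    · rw [rr, if_neg hl, e2, d]; omega
    · simp [hl, b]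
  · obtain ⟨e1, e2⟩ := coord' m hm (mir m x) (x / (2 * m : ℤ) + 1) (2 * m - 1 - j)
      (by rw [c]; rw [mul_add, hP]; ring) (by omega) (by omega)
    have hl : lft m (mir m x) := by
      rw [lft, e2]; omega
    refine ⟨?_, ?_, ?_⟩
    · rw [mir, if_pos hl, e1]
      have e : 2 * (2 * (m : ℤ)) * (x / (2 * m : ℤ) + 1)
        = 2 * ((2 * (m : ℤ)) * (x / (2 * m : ℤ))) + 4 * m := by ring
      rw [e, hP, c]; omega
    · rw [rr, if_pos hl, e2, d]
    · simp [hl, b]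

theorem mir_mir (m : ℕ) (hm : 2 ≤ m) (x : ℤ) : mir m (mir m x) = x := (mir_facts m hm x).1

theorem cc_mir (m : ℕ) (hm : 2 ≤ m) (x : ℤ) : cc m (mir m x) = cc m x := by
  rw [cc, cc, (mir_facts m hm x).2.1]

theorem sc_mir (m : ℕ) (hm : 2 ≤ m) (x : ℤ) : sc m (mir m x) = -sc m x := by
  rw [sc, sc, (mir_facts m hm x).2.1]
  by_cases h : lft m x
  · have h' : ¬ lft m (mir m x) := by rw [(mir_facts m hm x).2.2]; simpa using h
    rw [if_neg h', if_pos h]
  · have h' : lft m (mir m x) := by rw [(mir_facts m hm x).2.2]; exact h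
    rw [if_pos h', if_neg h, neg_neg]

theorem cs (m : ℕ) (x : ℤ) : cc m x * cc m x + sc m x * sc m x = 1 := by
  have h := Real.cos_sq_add_sin_sq (ang m (rr m x))
  rw [cc, sc]
  split_ifs
  · nlinarith [h]
  · nlinarith [h]

theorem mir_ne (m : ℕ) (hm : 2 ≤ m) (x : ℤ) : mir m x ≠ x := by
  obtain ⟨P, j, hP, hj, hx, h0, h1, h⟩ := coord m hm x
  rcases h with ⟨a, b, c, d⟩ | ⟨a, b, c, d⟩ <;> rw [c] <;> omega

theorem mir_dist (m : ℕ) (hm : 2 ≤ m) (x : ℤ) : |x - mir m x| ≤ 2 * m := by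
  obtain ⟨P, j, hP, hj, hx, h0, h1, h⟩ := coord m hm x
  rcases h with ⟨a, b, c, d⟩ | ⟨a, b, c, d⟩ <;> rw [c, abs_le] <;> omega

theorem shift (m : ℕ) (hm : 2 ≤ m) (x : ℤ) : (lft m (x + 2 * m) ↔ lft m x) ∧
    mir m (x + 2 * m) = mir m x + 2 * m ∧ rr m (x + 2 * m) = rr m x := by
  have hM : (0 : ℤ) < 2 * m := by omega
  have e1 : (x + 2 * (m : ℤ)) % (2 * m : ℤ) = x % (2 * m : ℤ) := by
    rw [Int.add_emod_right]
  have e2 : (x + 2 * (m : ℤ)) / (2 * m : ℤ) = x / (2 * m : ℤ) + 1 := by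
    rw [Int.add_ediv_of_dvd_right (dvd_refl _), Int.ediv_self (by omega)]
  have hl : lft m (x + 2 * m) ↔ lft m x := by rw [lft, lft, e1]
  refine ⟨hl, ?_, ?_⟩
  · by_cases h : lft m x
    · rw [mir, mir, if_pos h, if_pos (hl.mpr h), e2]; ring
    · rw [mir, mir, if_neg h, if_neg (fun hh => h (hl.mp hh)), e2]; ring
  · by_cases h : lft m x
    · rw [rr, rr, if_pos h, if_pos (hl.mpr h), e1]
    · rw [rr, rr, if_neg h, if_neg (fun hh => h (hl.mp hh)), e1]

theorem U1_shift (m : ℕ) (hm : 2 ≤ m) (x p : ℤ) : U1 m (x + 2 * m) (p + 2 * m) = U1 m x p := by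
  obtain ⟨hl, hmi, hr⟩ := shift m hm p
  have hc : cc m (p + 2 * m) = cc m p := by rw [cc, cc, hr]
  have hs : sc m (p + 2 * m) = sc m p := by
    rw [sc, sc, hr]
    by_cases h : lft m p
    · rw [if_pos h, if_pos (hl.mpr h)]
    · rw [if_neg h, if_neg (fun hh => h (hl.mp hh))]
  rw [U1, U1, hc, hs, hmi]
  simp only [add_left_inj]

theorem U1_supp (m : ℕ) (hm : 2 ≤ m) (x p : ℤ) (h : U1 m x p ≠ 0) :
    (2 * (m : ℤ)) * (p / (2 * m : ℤ)) - m ≤ x ∧ x < (2 * (m : ℤ)) * (p / (2 * m : ℤ)) + 3 * m := by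
  have hor : x = p ∨ x = mir m p := by
    by_contra hcon
    push Not at hcon
    apply h
    rw [U1, if_neg hcon.1, if_neg hcon.2, add_zero]
  obtain ⟨P, j, hP, hj, hx, h0, h1, h⟩ := coord m hm p
  rw [hP]
  rcases hor with hor | hor
  · rw [hor]; omega
  · rcases h with ⟨a, b, c, d⟩ | ⟨a, b, c, d⟩ <;> rw [hor, c] <;> omega

/-! ### orthogonality -/

theorem U1_self (m : ℕ) (hm : 2 ≤ m) (p : ℤ) : U1 m p p = cc m p := by
  rw [U1, if_pos rfl, if_neg (fun h => mir_ne m hm p h.symm), add_zero]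

theorem U1_mir (m : ℕ) (hm : 2 ≤ m) (p : ℤ) : U1 m (mir m p) p = sc m p := by
  rw [U1, if_neg (mir_ne m hm p), if_pos rfl, zero_add]

theorem U1_mir' (m : ℕ) (hm : 2 ≤ m) (p : ℤ) : U1 m p (mir m p) = -sc m p := by
  have := U1_mir m hm (mir m p)
  rw [mir_mir m hm, sc_mir m hm] at this
  exact this

theorem U1_zero (m : ℕ) (x p : ℤ) (h1 : x ≠ p) (h2 : x ≠ mir m p) : U1 m x p = 0 := by
  rw [U1, if_neg h1, if_neg h2, add_zero]

theorem orth1 (m : ℕ) (hm : 2 ≤ m) (p q : ℤ) :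
    HasSum (fun x => U1 m x p * U1 m x q) (if p = q then 1 else 0) := by
  have hs : HasSum (fun x => U1 m x p * U1 m x q)
      (∑ x ∈ ({p, mir m p} : Finset ℤ), U1 m x p * U1 m x q) := by
    apply hasSum_sum_of_ne_finset_zero
    intro x hx
    simp only [Finset.mem_insert, Finset.mem_singleton, not_or] at hx
    rw [U1_zero m x p hx.1 hx.2, zero_mul]
  rw [Finset.sum_pair (mir_ne m hm p).symm, U1_self m hm p, U1_mir m hm p] at hs
  by_cases h : p = q
  · subst h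
    rw [if_pos rfl]
    rw [U1_self m hm p, U1_mir m hm p, cs m p] at hs
    exact hs
  · rw [if_neg h]
    by_cases h2 : p = mir m q
    · have h3 : mir m p = q := by rw [h2, mir_mir m hm]
      rw [h3, U1_self m hm q] at hs
      have e1 : U1 m p q = sc m q := by rw [h2]; exact U1_mir m hm q
      have e2 : cc m p = cc m q := by rw [h2, cc_mir m hm]
      have e3 : sc m p = - sc m q := by rw [h2, sc_mir m hm]
      rw [e1, e2, e3] at hs
      have : cc m q * sc m q + -sc m q * cc m q = 0 := by ring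
      rw [this] at hs
      exact hs
    · have h3 : mir m p ≠ q := fun hh => h2 (by rw [← hh, mir_mir m hm])
      have h4 : mir m p ≠ mir m q := fun hh => h (by rw [← mir_mir m hm p, hh, mir_mir m hm])
      rw [U1_zero m p q h h2, U1_zero m (mir m p) q h3 h4] at hs
      simpa using hs

theorem orth2 (m : ℕ) (hm : 2 ≤ m) (x y : ℤ) :
    HasSum (fun p => U1 m x p * U1 m y p) (if x = y then 1 else 0) := by
  have hs : HasSum (fun p => U1 m x p * U1 m y p)
      (∑ p ∈ ({x, mir m x} : Finset ℤ), U1 m x p * U1 m y p) := by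
    apply hasSum_sum_of_ne_finset_zero
    intro p hp
    simp only [Finset.mem_insert, Finset.mem_singleton, not_or] at hp
    rw [U1_zero m x p (fun h => hp.1 h.symm) (fun h => hp.2 (by rw [h, mir_mir m hm])), zero_mul]
  rw [Finset.sum_pair (mir_ne m hm x).symm, U1_self m hm x, U1_mir' m hm x] at hs
  by_cases h : x = y
  · subst h
    rw [if_pos rfl]
    rw [U1_self m hm x, U1_mir' m hm x] at hs
    have := cs m x
    rw [neg_mul_neg, this] at hs
    exact hs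
  · rw [if_neg h]
    by_cases h2 : y = mir m x
    · subst h2
      rw [U1_mir m hm x, U1_self m hm (mir m x), cc_mir m hm] at hs
      have : cc m x * sc m x + -sc m x * cc m x = 0 := by ring
      rw [this] at hs
      exact hs
    · have h3 : y ≠ mir m (mir m x) := by rw [mir_mir m hm]; exact fun hh => h hh.symm
      rw [U1_zero m y x (fun hh => h hh.symm) h2, U1_zero m y (mir m x) h2 h3] at hs
      simpa using hs

/-! ### the error kernel -/

theorem k1_symm (x y : ℤ) : k1 x y = k1 y x := by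
  unfold k1
  rw [add_comm]
  have e1 : (y = x - 1) ↔ (x = y + 1) := by constructor <;> intro h <;> omega
  have e2 : (y = x + 1) ↔ (x = y - 1) := by constructor <;> intro h <;> omega
  simp only [e1, e2]

theorem k1_one (x y : ℤ) (h : y = x + 1 ∨ y = x - 1) : k1 x y = 1 := by
  unfold k1
  rcases h with h | h
  · rw [if_pos h, if_neg (by omega), add_zero]
  · rw [if_pos h, if_neg (by omega), zero_add]

theorem k1_zero (x y : ℤ) (h : ¬ (y = x + 1 ∨ y = x - 1)) : k1 x y = 0 := by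
  unfold k1
  push Not at h
  rw [if_neg h.1, if_neg h.2, add_zero]

theorem blk_symm (m : ℕ) (x y : ℤ) : blk m x y = blk m y x := by
  unfold blk
  by_cases h : x = y
  · subst h; rfl
  · have h' : ¬ y = x := fun hh => h hh.symm
    simp only [h, h', false_and, if_false, add_zero, sub_zero]
    rw [k1_symm x y]
    by_cases h2 : x / (2 * m : ℤ) = y / (2 * m : ℤ)
    · rw [if_pos h2, if_pos h2.symm]
    · rw [if_neg h2, if_neg (fun hh => h2 hh.symm)]

theorem er_symm (m : ℕ) (x y : ℤ) : er m x y = er m y x := by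
  unfold er
  rw [k1_symm x y, k1_symm x (mir m y), k1_symm (mir m x) y, k1_symm (mir m x) (mir m y), blk_symm m x y]
  ring

end Pool.Agent.H333.FL

namespace Pool.Agent.H333.FL

open Pool.Agent.H121.FL


set_option maxHeartbeats 4000000 in
theorem cls (m P j P' j' X Y x y r r' : ℤ) (hm : 2 ≤ m) (hx : x = P + j) (h0 : 0 ≤ j)
    (h1 : j < 2 * m) (hy : y = P' + j') (h0' : 0 ≤ j') (h1' : j' < 2 * m)
    (hX : (j < m ∧ X = P - 1 - j ∧ r = j) ∨ (m ≤ j ∧ X = P + 4 * m - 1 - j ∧ r = 2 * m - 1 - j))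
    (hY : (j' < m ∧ Y = P' - 1 - j' ∧ r' = j') ∨
      (m ≤ j' ∧ Y = P' + 4 * m - 1 - j' ∧ r' = 2 * m - 1 - j'))
    (hPP : P' = P ∨ P' = P + 2 * m ∨ P' = P - 2 * m ∨ P' = P + 4 * m ∨ P' = P - 4 * m ∨
      P + 6 * m ≤ P' ∨ P' ≤ P - 6 * m)
    (hmid : ¬ (r = m - 1 ∧ r' = m - 1)) :
    (¬ (y = x + 1 ∨ y = x - 1) ∧ ¬ (Y = x + 1 ∨ Y = x - 1) ∧ ¬ (y = X + 1 ∨ y = X - 1) ∧
      ¬ (Y = X + 1 ∨ Y = X - 1) ∧ ¬ (x = y ∧ j = 0) ∧ ¬ (x = y ∧ j = 2 * m - 1)) ∨
    ((y = x + 1 ∨ y = x - 1) ∧ ¬ (Y = x + 1 ∨ Y = x - 1) ∧ ¬ (y = X + 1 ∨ y = X - 1) ∧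
      (Y = X + 1 ∨ Y = X - 1) ∧ P = P' ∧ ((j < m ∧ j' < m) ∨ (m ≤ j ∧ m ≤ j')) ∧
      (r' = r + 1 ∨ r' = r - 1)) ∨
    ((y = x + 1 ∨ y = x - 1) ∧ ¬ (Y = x + 1 ∨ Y = x - 1) ∧ ¬ (y = X + 1 ∨ y = X - 1) ∧
      (Y = X + 1 ∨ Y = X - 1) ∧ P ≠ P' ∧ ((j < m ∧ m ≤ j') ∨ (m ≤ j ∧ j' < m)) ∧
      r = 0 ∧ r' = 0) ∨
    (¬ (y = x + 1 ∨ y = x - 1) ∧ (Y = x + 1 ∨ Y = x - 1) ∧ (y = X + 1 ∨ y = X - 1) ∧
      ¬ (Y = X + 1 ∨ Y = X - 1) ∧ x = y ∧ r = 0) ∨
    (¬ (y = x + 1 ∨ y = x - 1) ∧ (Y = x + 1 ∨ Y = x - 1) ∧ (y = X + 1 ∨ y = X - 1) ∧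
      ¬ (Y = X + 1 ∨ Y = X - 1) ∧ x ≠ y ∧ ((j < m ∧ m ≤ j') ∨ (m ≤ j ∧ j' < m)) ∧
      (r' = r + 1 ∨ r' = r - 1)) := by
  rcases hX with ⟨a1, a2, a3⟩ | ⟨a1, a2, a3⟩ <;> rcases hY with ⟨b1, b2, b3⟩ | ⟨b1, b2, b3⟩ <;>
    rcases hPP with c | c | c | c | c | c | c <;>
    by_cases hA : (y = x + 1 ∨ y = x - 1) <;> by_cases hB : (Y = x + 1 ∨ Y = x - 1) <;>
    by_cases hC : (y = X + 1 ∨ y = X - 1) <;> by_cases hD : (Y = X + 1 ∨ Y = X - 1) <;>
    first
    | (exfalso; clear hmid; omega)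
    | (exfalso; omega)
    | (left; refine ⟨hA, hB, hC, hD, ?_, ?_⟩ <;> omega)
    | (right; left; refine ⟨hA, hB, hC, hD, ?_, ?_, ?_⟩ <;> omega)
    | (right; right; left; refine ⟨hA, hB, hC, hD, ?_, ?_, ?_, ?_⟩ <;> omega)
    | (right; right; right; by_cases hxy : x = y
       · (left; refine ⟨hA, hB, hC, hD, ?_, ?_⟩ <;> omega)
       · (right; refine ⟨hA, hB, hC, hD, ?_, ?_, ?_⟩ <;> omega))

end Pool.Agent.H333.FL

namespace Pool.Agent.H333.FL

open Pool.Agent.H121.FL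

theorem ang_zero (m : ℕ) : ang m 0 = Real.pi / 4 := by
  rw [ang]; simp

theorem ang_mid (m : ℕ) (hm : 2 ≤ m) : ang m ((m : ℤ) - 1) = 0 := by
  rw [ang]
  have : (m : ℝ) - 1 ≠ 0 := by
    have : (2 : ℝ) ≤ m := by exact_mod_cast hm
    linarith
  push_cast
  rw [div_self this]
  simp

theorem ang_diff (m : ℕ) (hm : 2 ≤ m) (r r' : ℤ) (h : r' = r + 1 ∨ r' = r - 1) :
    |ang m r - ang m r'| = Real.pi / (4 * (m - 1 : ℝ)) := by
  have hm' : (0 : ℝ) < (m : ℝ) - 1 := by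
    have : (2 : ℝ) ≤ m := by exact_mod_cast hm
    linarith
  have e : ang m r - ang m r' = ((r' : ℝ) - r) * (Real.pi / (4 * (m - 1 : ℝ))) := by
    rw [ang, ang]
    field_simp
    ring
  have hp : 0 < Real.pi / (4 * (m - 1 : ℝ)) := by
    have := Real.pi_pos
    positivity
  rw [e]
  rcases h with h | h
  · rw [h]; push_cast
    rw [add_sub_cancel_left, one_mul, abs_of_pos hp]
  · rw [h]; push_cast
    rw [sub_sub_cancel_left, neg_one_mul, abs_neg, abs_of_pos hp]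

theorem cos_bd (t : ℝ) : |Real.cos t - 1| ≤ |t| := by
  have h := Real.abs_cos_sub_cos_le t 0
  simpa using h

theorem sin_bd (t : ℝ) : |Real.sin t| ≤ |t| := by
  have h := Real.abs_sin_sub_sin_le t 0
  simpa using h

set_option maxHeartbeats 4000000 in
theorem er_key (m : ℕ) (hm : 2 ≤ m) (x y : ℤ) : er m x y = 0 ∨
    ((y = x + 1 ∨ y = x - 1 ∨ y = mir m x + 1 ∨ y = mir m x - 1) ∧
      |er m x y| ≤ Real.pi / (4 * (m - 1 : ℝ))) := by
  obtain ⟨P, j, hP, hj, hx, h0, h1, hX⟩ := coord m hm x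
  obtain ⟨P', j', hP', hj', hy, h0', h1', hY⟩ := coord m hm y
  have hm0 : (0 : ℤ) < 2 * m := by omega
  have hmZ : (2 : ℤ) ≤ (m : ℤ) := by exact_mod_cast hm
  have hPP : P' = P ∨ P' = P + 2 * m ∨ P' = P - 2 * m ∨ P' = P + 4 * m ∨ P' = P - 4 * m ∨
      P + 6 * m ≤ P' ∨ P' ≤ P - 6 * m := by
    have hn : y / (2 * m : ℤ) = x / (2 * m : ℤ) ∨ y / (2 * m : ℤ) = x / (2 * m : ℤ) + 1 ∨
        y / (2 * m : ℤ) = x / (2 * m : ℤ) - 1 ∨ y / (2 * m : ℤ) = x / (2 * m : ℤ) + 2 ∨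
        y / (2 * m : ℤ) = x / (2 * m : ℤ) - 2 ∨ x / (2 * m : ℤ) + 3 ≤ y / (2 * m : ℤ) ∨
        y / (2 * m : ℤ) ≤ x / (2 * m : ℤ) - 3 := by omega
    rw [← hP, ← hP']
    rcases hn with h | h | h | h | h | h | h
    · left; rw [h]
    · right; left; rw [h]; ring
    · right; right; left; rw [h]; ring
    · right; right; right; left; rw [h]; ring
    · right; right; right; right; left; rw [h]; ring
    · right; right; right; right; right; left
      have := mul_le_mul_of_nonneg_left h hm0.le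
      linarith
    · right; right; right; right; right; right
      have := mul_le_mul_of_nonneg_left h hm0.le
      linarith
  have hblock : (x / (2 * m : ℤ) = y / (2 * m : ℤ)) ↔ P = P' := by
    constructor
    · intro h; rw [← hP, ← hP', h]
    · intro h
      rw [← hP, ← hP'] at h
      exact mul_left_cancel₀ (by omega) h
  have hblk : blk m x y = (if P = P' then k1 x y else 0) + (if x = y ∧ j = 0 then 1 else 0) -
      (if x = y ∧ j = 2 * m - 1 then 1 else 0) := by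
    rw [blk, hj]
    by_cases h : P = P'
    · rw [if_pos h, if_pos (hblock.mpr h)]
    · rw [if_neg h, if_neg (fun hh => h (hblock.mp hh))]
  have hX' : (j < m ∧ mir m x = P - 1 - j ∧ rr m x = j) ∨
      ((m : ℤ) ≤ j ∧ mir m x = P + 4 * m - 1 - j ∧ rr m x = 2 * m - 1 - j) := by
    rcases hX with ⟨a, _, b, c⟩ | ⟨a, _, b, c⟩
    · left; exact ⟨a, b, c⟩
    · right; exact ⟨a, b, c⟩
  have hY' : (j' < m ∧ mir m y = P' - 1 - j' ∧ rr m y = j') ∨
      ((m : ℤ) ≤ j' ∧ mir m y = P' + 4 * m - 1 - j' ∧ rr m y = 2 * m - 1 - j') := by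
    rcases hY with ⟨a, _, b, c⟩ | ⟨a, _, b, c⟩
    · left; exact ⟨a, b, c⟩
    · right; exact ⟨a, b, c⟩
  have hlx : lft m x ↔ j < m := by rw [lft, hj]
  have hly : lft m y ↔ j' < m := by rw [lft, hj']
  -- the values of `cc` and `sc`
  set a := ang m (rr m x) with ha
  set b := ang m (rr m y) with hb
  have hccx : cc m x = Real.cos a := rfl
  have hccy : cc m y = Real.cos b := rfl
  have hscx1 : j < m → sc m x = Real.sin a := fun h => by rw [sc, if_pos (hlx.mpr h)]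
  have hscx2 : (m : ℤ) ≤ j → sc m x = -Real.sin a := fun h => by
    rw [sc, if_neg (fun hh => absurd (hlx.mp hh) (not_lt.mpr h))]
  have hscy1 : j' < m → sc m y = Real.sin b := fun h => by rw [sc, if_pos (hly.mpr h)]
  have hscy2 : (m : ℤ) ≤ j' → sc m y = -Real.sin b := fun h => by
    rw [sc, if_neg (fun hh => absurd (hly.mp hh) (not_lt.mpr h))]
  have hsq : Real.sin (Real.pi / 4) * Real.sin (Real.pi / 4) = 1 / 2 := by
    rw [Real.sin_pi_div_four, div_mul_div_comm, Real.mul_self_sqrt (by norm_num)]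
    norm_num
  have hcq : Real.cos (Real.pi / 4) = Real.sin (Real.pi / 4) := by
    rw [Real.sin_pi_div_four, Real.cos_pi_div_four]
  by_cases hmid : rr m x = m - 1 ∧ rr m y = m - 1
  · left
    have a0 : a = 0 := by rw [ha, hmid.1, ang_mid m hm]
    have b0 : b = 0 := by rw [hb, hmid.2, ang_mid m hm]
    have sx : sc m x = 0 := by
      rcases lt_or_ge j (m : ℤ) with h | h
      · rw [hscx1 h, a0, Real.sin_zero]
      · rw [hscx2 h, a0, Real.sin_zero, neg_zero]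
    have sy : sc m y = 0 := by
      rcases lt_or_ge j' (m : ℤ) with h | h
      · rw [hscy1 h, b0, Real.sin_zero]
      · rw [hscy2 h, b0, Real.sin_zero, neg_zero]
    rw [er, hccx, hccy, sx, sy, a0, b0, hblk, Real.cos_zero]
    have e1 : ¬ (x = y ∧ j = 0) := by omega
    have e2 : ¬ (x = y ∧ j = 2 * m - 1) := by omega
    rw [if_neg e1, if_neg e2]
    by_cases h : P = P'
    · rw [if_pos h]; ring
    · rw [if_neg h, k1_zero x y (by omega)]; ring
  · rcases cls m P j P' j' (mir m x) (mir m y) x y (rr m x) (rr m y) hmZ hx h0 h1 hy h0' h1' hX' hY'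
      hPP hmid with ⟨hA, hB, hC, hD, e1, e2⟩ | ⟨hA, hB, hC, hD, e1, e2, e3⟩ |
        ⟨hA, hB, hC, hD, e1, e2, e3, e4⟩ | ⟨hA, hB, hC, hD, e1, e2⟩ | ⟨hA, hB, hC, hD, e1, e2, e3⟩
    · left
      rw [er, hblk, k1_zero _ _ hA, k1_zero _ _ hB, k1_zero _ _ hC, k1_zero _ _ hD, if_neg e1,
        if_neg e2, ite_self]
      ring
    · right
      refine ⟨by omega, ?_⟩
      have hne : x ≠ y := by omega
      have hv : er m x y = Real.cos (a - b) - 1 := by
        rw [er, hblk, k1_one _ _ hA, k1_zero _ _ hB, k1_zero _ _ hC, k1_one _ _ hD, if_pos e1,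
          if_neg (fun hh => hne hh.1), if_neg (fun hh => hne hh.1), hccx, hccy, Real.cos_sub]
        rcases e2 with ⟨f1, f2⟩ | ⟨f1, f2⟩
        · rw [hscx1 f1, hscy1 f2]; ring
        · rw [hscx2 f1, hscy2 f2]; ring
      rw [hv, ← ang_diff m hm (rr m x) (rr m y) e3]
      exact cos_bd _
    · left
      have hne : x ≠ y := by omega
      have a0 : a = Real.pi / 4 := by rw [ha, e3, ang_zero]
      have b0 : b = Real.pi / 4 := by rw [hb, e4, ang_zero]
      rw [er, hblk, k1_one _ _ hA, k1_zero _ _ hB, k1_zero _ _ hC, k1_one _ _ hD, if_neg e1,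
          if_neg (fun hh => hne hh.1), if_neg (fun hh => hne hh.1), hccx, hccy, a0, b0]
      rcases e2 with ⟨f1, f2⟩ | ⟨f1, f2⟩
      · rw [hscx1 f1, hscy2 f2, a0, b0, hcq]; ring
      · rw [hscx2 f1, hscy1 f2, a0, b0, hcq]; ring
    · left
      have a0 : a = Real.pi / 4 := by rw [ha, e2, ang_zero]
      have hab : b = a := by rw [hb, ha, e1]
      have b0 : b = Real.pi / 4 := by rw [hab, a0]
      have hjj : (j < m ∧ j' < m ∧ j = 0) ∨ ((m : ℤ) ≤ j ∧ (m : ℤ) ≤ j' ∧ j = 2 * m - 1) := by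
        have : j = j' := by rw [← hj, ← hj', e1]
        omega
      rw [er, hblk, k1_zero _ _ hA, k1_one _ _ hB, k1_one _ _ hC, k1_zero _ _ hD, hccx, hccy, a0, b0]
      rcases hjj with ⟨f1, f2, f3⟩ | ⟨f1, f2, f3⟩
      · rw [hscx1 f1, hscy1 f2, a0, b0, if_pos (⟨e1, f3⟩ : x = y ∧ j = 0),
          if_neg (by omega : ¬ (x = y ∧ j = 2 * m - 1)), hcq, ite_self]
        linarith [hsq]
      · rw [hscx2 f1, hscy2 f2, a0, b0, if_neg (by omega : ¬ (x = y ∧ j = 0)),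
          if_pos (⟨e1, f3⟩ : x = y ∧ j = 2 * m - 1), hcq, ite_self]
        linarith [hsq]
    · right
      refine ⟨by omega, ?_⟩
      rw [← ang_diff m hm (rr m x) (rr m y) e3]
      rcases e2 with ⟨f1, f2⟩ | ⟨f1, f2⟩
      · have hv : er m x y = Real.sin (a - b) := by
          rw [er, hblk, k1_zero _ _ hA, k1_one _ _ hB, k1_one _ _ hC, k1_zero _ _ hD,
            ite_self, if_neg (fun hh => e1 hh.1), if_neg (fun hh => e1 hh.1), hccx, hccy, Real.sin_sub,
            hscx1 f1, hscy2 f2]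
          ring
        rw [hv]
        exact sin_bd _
      · have hv : er m x y = -Real.sin (a - b) := by
          rw [er, hblk, k1_zero _ _ hA, k1_one _ _ hB, k1_one _ _ hC, k1_zero _ _ hD,
            ite_self, if_neg (fun hh => e1 hh.1), if_neg (fun hh => e1 hh.1), hccx, hccy, Real.sin_sub,
            hscx2 f1, hscy1 f2]
          ring
        rw [hv, abs_neg]
        exact sin_bd _

theorem er_sum (m : ℕ) (hm : 2 ≤ m) (x : ℤ) :
    (Summable fun y => |er m x y|) ∧ ∑' y, |er m x y| ≤ 4 * (Real.pi / (4 * (m - 1 : ℝ))) := by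
  have hm' : (0 : ℝ) < (m : ℝ) - 1 := by
    have : (2 : ℝ) ≤ m := by exact_mod_cast hm
    linarith
  have hp : 0 < Real.pi / (4 * (m - 1 : ℝ)) := by
    have := Real.pi_pos
    positivity
  let S : Finset ℤ := {x + 1, x - 1, mir m x + 1, mir m x - 1}
  have hzero : ∀ y, y ∉ S → |er m x y| = 0 := by
    intro y hy
    simp only [S, Finset.mem_insert, Finset.mem_singleton] at hy
    rcases er_key m hm x y with h | h
    · rw [h, abs_zero]
    · exact absurd h.1 hy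
  have hs : HasSum (fun y => |er m x y|) (∑ y ∈ S, |er m x y|) := by
    apply hasSum_sum_of_ne_finset_zero
    exact hzero
  refine ⟨hs.summable, ?_⟩
  rw [hs.tsum_eq]
  have hle : ∀ y ∈ S, |er m x y| ≤ Real.pi / (4 * (m - 1 : ℝ)) := by
    intro y _
    rcases er_key m hm x y with h | h
    · rw [h, abs_zero]; exact hp.le
    · exact h.2
  calc ∑ y ∈ S, |er m x y| ≤ S.card • (Real.pi / (4 * (m - 1 : ℝ))) := Finset.sum_le_card_nsmul S _ _ hle
    _ = (S.card : ℝ) * (Real.pi / (4 * (m - 1 : ℝ))) := by rw [nsmul_eq_mul]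
    _ ≤ 4 * (Real.pi / (4 * (m - 1 : ℝ))) := by
        apply mul_le_mul_of_nonneg_right _ hp.le
        have : S.card ≤ 4 := Finset.card_le_four
        exact_mod_cast this

theorem fold : S_fold := by
  intro m hm
  exact ⟨mir_mir m hm, fun x => (shift m hm x).2.1, mir_dist m hm, mir_ne m hm, orth1 m hm, orth2 m hm,
    U1_shift m hm, U1_supp m hm, er_symm m, er_sum m hm⟩

end Pool.Agent.H333.FL
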